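import Mathlib

open MeasureTheory Set Filter Topology
open scoped ENNReal

namespace Pool.Agent.Results.MP_95ea62_an.UniformComparison

/-- `ℝ^N` with its Euclidean norm. -/
abbrev E (N : ℕ) : Type := EuclideanSpace ℝ (Fin N)

/-- The `p`-th power of the Gagliardo seminorm:
`∫∫ |f(x) - f(y)|^p / |x - y|^{N + s p} dy dx`. -/
noncomputable def gagliardoPow {N : ℕ} (s p : ℝ) (f : E N → ℂ) : ℝ≥0∞ :=
  ∫⁻ x, ∫⁻ y, ‖f x - f y‖ₑ ^ p / ‖x - y‖ₑ ^ ((N : ℝ) + s * p)

/-- The homogeneous Gagliardo seminorm `[f]_{Ẇ^{s,p}}`. -/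
noncomputable def gagliardo {N : ℕ} (s p : ℝ) (f : E N → ℂ) : ℝ≥0∞ :=
  gagliardoPow s p f ^ (1 / p)

/-! ### Abel summation -/

lemma abel {a : ℕ → ℝ≥0∞} (ha : Monotone a) {x y : ℝ≥0∞} (hxy : x ≤ y) (hy : y ≤ 1) :
    (1 - x) * ∑' k, a k * x ^ k ≤ (1 - y) * (∑' k, a k * y ^ k) ∨
      ∑' k, a k * y ^ k = ⊤ := by
  by_cases hS : ∑' k, a k * y ^ k = ⊤
  · exact Or.inr hS
  left
  have key : ∀ z : ℝ≥0∞, z ≤ 1 → ∑' k, a k * z ^ k ≠ ⊤ →
      (1 - z) * ∑' k, a k * z ^ k = a 0 + ∑' k, (a (k + 1) - a k) * z ^ (k + 1) := by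
    intro z hz hfin
    have e1 : ∑' k, a k * z ^ k = a 0 + ∑' k, a (k + 1) * z ^ (k + 1) := by
      rw [tsum_eq_zero_add' ENNReal.summable]
      simp
    have e2 : ∑' k, a (k + 1) * z ^ (k + 1) =
        ∑' k, (a (k + 1) - a k) * z ^ (k + 1) + z * ∑' k, a k * z ^ k := by
      rw [← ENNReal.tsum_mul_left, ← ENNReal.tsum_add]
      refine tsum_congr fun k => ?_
      have : a (k + 1) = (a (k + 1) - a k) + a k := (tsub_add_cancel_of_le (ha k.le_succ)).symm
      conv_lhs => rw [this]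
      ring
    have e3 : (1 - z) * ∑' k, a k * z ^ k + z * ∑' k, a k * z ^ k =
        (a 0 + ∑' k, (a (k + 1) - a k) * z ^ (k + 1)) + z * ∑' k, a k * z ^ k := by
      rw [← add_mul, tsub_add_cancel_of_le hz, one_mul]
      conv_lhs => rw [e1, e2]
      rw [add_assoc]
    have hzfin : z * ∑' k, a k * z ^ k ≠ ⊤ :=
      ENNReal.mul_ne_top (ne_top_of_le_ne_top ENNReal.one_ne_top hz) hfin
    exact (ENNReal.add_left_inj hzfin).1 e3
  have hx : ∑' k, a k * x ^ k ≠ ⊤ := by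
    refine ne_top_of_le_ne_top hS (ENNReal.tsum_le_tsum fun k => ?_)
    gcongr
  rw [key x (hxy.trans hy) hx, key y hy hS]
  gcongr

/-! ### The `L^p` modulus -/

/-- `W(h) = ‖f(· + h) - f‖_p^p`. -/
noncomputable def W {N : ℕ} (p : ℝ) (f : E N → ℂ) (h : E N) : ℝ≥0∞ :=
  ∫⁻ x, ‖f (x + h) - f x‖ₑ ^ p

lemma add_rpow_le {p : ℝ} (hp : 1 ≤ p) (a b : ℝ≥0∞) :
    (a + b) ^ p ≤ 2 ^ (p - 1) * (a ^ p + b ^ p) :=
  ENNReal.rpow_add_le_mul_rpow_add_rpow a b hp

lemma two_rpow (p : ℝ) : (2 : ℝ≥0∞) ^ (p - 1) * 2 = 2 ^ p := by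
  conv_lhs => rw [show (2 : ℝ≥0∞) ^ (p - 1) * 2 = 2 ^ (p - 1) * 2 ^ (1 : ℝ) by simp]
  rw [← ENNReal.rpow_add _ _ (by norm_num) (by norm_num)]
  congr 1
  ring

lemma W_double {N : ℕ} {p : ℝ} (hp : 1 ≤ p) {f : E N → ℂ} (hf : Measurable f) (h : E N) :
    W p f ((2 : ℝ) • h) ≤ 2 ^ p * W p f h := by
  unfold W
  calc ∫⁻ x, ‖f (x + (2 : ℝ) • h) - f x‖ₑ ^ p
      ≤ ∫⁻ x, 2 ^ (p - 1) * (‖f (x + h + h) - f (x + h)‖ₑ ^ p + ‖f (x + h) - f x‖ₑ ^ p) := by
        refine lintegral_mono fun x => ?_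
        refine le_trans ?_ (add_rpow_le hp _ _)
        have e : f (x + (2 : ℝ) • h) - f x =
            (f (x + h + h) - f (x + h)) + (f (x + h) - f x) := by
          rw [two_smul, ← add_assoc]
          ring
        rw [e]
        exact ENNReal.rpow_le_rpow (enorm_add_le _ _) (by linarith)
    _ = 2 ^ (p - 1) * ((∫⁻ x, ‖f (x + h + h) - f (x + h)‖ₑ ^ p) +
          ∫⁻ x, ‖f (x + h) - f x‖ₑ ^ p) := by
        rw [lintegral_const_mul _ (by fun_prop), lintegral_add_left (by fun_prop)]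
    _ = 2 ^ p * ∫⁻ x, ‖f (x + h) - f x‖ₑ ^ p := by
        rw [lintegral_add_right_eq_self (fun x => ‖f (x + h) - f x‖ₑ ^ p) h, ← two_mul,
          ← mul_assoc, two_rpow]

lemma W_le {N : ℕ} {p : ℝ} (hp : 1 ≤ p) {f : E N → ℂ} (hf : Measurable f) (h : E N) :
    W p f h ≤ 2 ^ p * ∫⁻ x, ‖f x‖ₑ ^ p := by
  unfold W
  calc ∫⁻ x, ‖f (x + h) - f x‖ₑ ^ p
      ≤ ∫⁻ x, 2 ^ (p - 1) * (‖f (x + h)‖ₑ ^ p + ‖f x‖ₑ ^ p) := by
        refine lintegral_mono fun x => ?_
        refine le_trans ?_ (add_rpow_le hp _ _)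
        exact ENNReal.rpow_le_rpow enorm_sub_le (by linarith)
    _ = 2 ^ (p - 1) * ((∫⁻ x, ‖f (x + h)‖ₑ ^ p) + ∫⁻ x, ‖f x‖ₑ ^ p) := by
        rw [lintegral_const_mul _ (by fun_prop), lintegral_add_left (by fun_prop)]
    _ = 2 ^ p * ∫⁻ x, ‖f x‖ₑ ^ p := by
        rw [lintegral_add_right_eq_self (fun x => ‖f x‖ₑ ^ p) h, ← two_mul,
          ← mul_assoc, two_rpow]

lemma W_measurable {N : ℕ} {p : ℝ} {f : E N → ℂ} (hf : Measurable f) : Measurable (W p f) := by
  unfold W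
  refine Measurable.lintegral_prod_right' (f := fun q : E N × E N =>
    ‖f (q.2 + q.1) - f q.2‖ₑ ^ p) ?_
  fun_prop

lemma gagliardoPow_eq {N : ℕ} {s p : ℝ} {f : E N → ℂ} (hf : Measurable f) :
    gagliardoPow s p f = ∫⁻ h, W p f h * ‖h‖ₑ ^ (-((N : ℝ) + s * p)) := by
  unfold gagliardoPow
  calc ∫⁻ x, ∫⁻ y, ‖f x - f y‖ₑ ^ p / ‖x - y‖ₑ ^ ((N : ℝ) + s * p)
      = ∫⁻ x, ∫⁻ h, ‖f (x + h) - f x‖ₑ ^ p * ‖h‖ₑ ^ (-((N : ℝ) + s * p)) := by
        refine lintegral_congr fun x => ?_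
        rw [← lintegral_add_left_eq_self _ x]
        refine lintegral_congr fun h => ?_
        have h1 : ‖f x - f (x + h)‖ₑ = ‖f (x + h) - f x‖ₑ := by
          rw [← enorm_neg, neg_sub]
        have h2 : ‖x - (x + h)‖ₑ = ‖h‖ₑ := by
          rw [← enorm_neg]
          congr 1
          abel
        rw [h1, h2, ENNReal.rpow_neg, div_eq_mul_inv]
    _ = ∫⁻ h, ∫⁻ x, ‖f (x + h) - f x‖ₑ ^ p * ‖h‖ₑ ^ (-((N : ℝ) + s * p)) := by
        rw [lintegral_lintegral_swap]
        refine Measurable.aemeasurable ?_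
        simp only [Function.uncurry_def]
        fun_prop
    _ = ∫⁻ h, W p f h * ‖h‖ₑ ^ (-((N : ℝ) + s * p)) := by
        refine lintegral_congr fun h => ?_
        rw [lintegral_mul_const _ (by fun_prop)]
        rfl

/-! ### Dyadic shells -/

/-- The shell `2^{-(k+1)} < |h| ≤ 2^{-k}`. -/
def shell (N : ℕ) (k : ℕ) : Set (E N) := {h | (1 / 2 : ℝ) ^ (k + 1) < ‖h‖ ∧ ‖h‖ ≤ (1 / 2) ^ k}

lemma shell_measurable (N k : ℕ) : MeasurableSet (shell N k) :=
  (measurableSet_lt measurable_const measurable_norm).inter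
    (measurableSet_le measurable_norm measurable_const)

lemma shell_disjoint (N : ℕ) : Pairwise (Function.onFun Disjoint (shell N)) := by
  have key : ∀ i j : ℕ, i < j → Disjoint (shell N i) (shell N j) := by
    intro i j hij
    rw [Set.disjoint_left]
    rintro h ⟨h1, -⟩ ⟨-, h2⟩
    have : (1 / 2 : ℝ) ^ j ≤ (1 / 2) ^ (i + 1) :=
      pow_le_pow_of_le_one (by norm_num) (by norm_num) hij
    linarith
  intro i j hij
  rcases lt_or_gt_of_ne hij with h | h
  · exact key i j h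
  · exact (key j i h).symm

lemma shell_union (N : ℕ) : ⋃ k, shell N k = {h | 0 < ‖h‖ ∧ ‖h‖ ≤ 1} := by
  ext h
  simp only [mem_iUnion, Set.mem_ofPred_eq, shell]
  constructor
  · rintro ⟨k, h1, h2⟩
    refine ⟨lt_of_le_of_lt (by positivity) h1, h2.trans (pow_le_one₀ (by norm_num) (by norm_num))⟩
  · rintro ⟨h1, h2⟩
    obtain ⟨k, hk1, hk2⟩ := exists_nat_pow_near_of_lt_one h1 h2 (by norm_num : (0 : ℝ) < 1 / 2)
      (by norm_num)
    exact ⟨k, hk1, hk2⟩

/-- The shell integrals with the critical weight. -/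
noncomputable def A {N : ℕ} (p : ℝ) (f : E N → ℂ) (k : ℕ) : ℝ≥0∞ :=
  ∫⁻ h in shell N k, W p f h * ‖h‖ₑ ^ (-((N : ℝ) + p))

lemma lintegral_scale {N : ℕ} (F : E N → ℝ≥0∞) (hF : Measurable F) :
    ∫⁻ h, F ((2 : ℝ) • h) = ENNReal.ofReal ((2 ^ N)⁻¹) * ∫⁻ h, F h := by
  have h1 := Measure.map_addHaar_smul (volume : Measure (E N)) (r := (2 : ℝ)) (by norm_num)
  have h2 : ∫⁻ h, F ((2 : ℝ) • h) = ∫⁻ h, F h ∂(Measure.map (fun x => (2 : ℝ) • x) volume) := by
    rw [lintegral_map hF (by fun_prop)]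
  rw [h2]
  have h3 : Measure.map (fun x : E N => (2 : ℝ) • x) volume =
      ENNReal.ofReal |((2 : ℝ) ^ Module.finrank ℝ (E N))⁻¹| • volume := h1
  rw [h3, lintegral_smul_measure, smul_eq_mul, finrank_euclideanSpace, Fintype.card_fin,
    abs_of_pos (by positivity)]

lemma A_mono {N : ℕ} {p : ℝ} (hp : 1 ≤ p) {f : E N → ℂ} (hf : Measurable f) :
    Monotone (A p f) := by
  refine monotone_nat_of_le_succ fun k => ?_
  unfold A
  rw [← lintegral_indicator (shell_measurable N k),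
    ← lintegral_indicator (shell_measurable N (k + 1))]
  set F : E N → ℝ≥0∞ := (shell N k).indicator fun h => W p f h * ‖h‖ₑ ^ (-((N : ℝ) + p)) with hF
  set F' : E N → ℝ≥0∞ := (shell N (k + 1)).indicator
    fun h => W p f h * ‖h‖ₑ ^ (-((N : ℝ) + p)) with hF'
  have hWm := W_measurable (p := p) hf
  have hFm : Measurable F := by
    refine Measurable.indicator ?_ (shell_measurable N k)
    fun_prop
  have hF'm : Measurable F' := by
    refine Measurable.indicator ?_ (shell_measurable N (k + 1))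
    fun_prop
  have h1 := lintegral_scale F hFm
  have hpt : ∀ h, F ((2 : ℝ) • h) ≤ ENNReal.ofReal ((2 ^ N)⁻¹) * F' h := by
    intro h
    have hmem : (2 : ℝ) • h ∈ shell N k ↔ h ∈ shell N (k + 1) := by
      simp only [shell, Set.mem_ofPred_eq, norm_smul, Real.norm_ofNat, pow_succ]
      constructor
      · rintro ⟨h1, h2⟩
        constructor <;> linarith
      · rintro ⟨h1, h2⟩
        constructor <;> linarith
    by_cases hh : h ∈ shell N (k + 1)
    · rw [hF, hF', indicator_of_mem (hmem.2 hh), indicator_of_mem hh]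
      have e : ‖(2 : ℝ) • h‖ₑ ^ (-((N : ℝ) + p)) =
          2 ^ (-((N : ℝ) + p)) * ‖h‖ₑ ^ (-((N : ℝ) + p)) := by
        rw [enorm_smul]
        have h2 : ‖(2 : ℝ)‖ₑ = 2 := by
          rw [Real.enorm_eq_ofReal_abs]; norm_num
        rw [h2]
        have hne : ‖h‖ₑ ≠ ⊤ := enorm_ne_top
        have hn0 : ‖h‖ₑ ≠ 0 := by
          rw [Ne, enorm_eq_zero, ← norm_eq_zero]
          exact (lt_of_le_of_lt (by positivity) hh.1).ne'
        exact ENNReal.mul_rpow_of_ne_zero (by norm_num) hn0 _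
      have e2 : (2 : ℝ≥0∞) ^ p * 2 ^ (-((N : ℝ) + p)) = ENNReal.ofReal ((2 ^ N)⁻¹) := by
        rw [← ENNReal.rpow_add _ _ (by norm_num) (by norm_num),
          show p + -((N : ℝ) + p) = -(N : ℝ) by ring, ENNReal.rpow_neg, ENNReal.rpow_natCast,
          ENNReal.ofReal_inv_of_pos (by positivity), ENNReal.ofReal_pow (by norm_num)]
        norm_num
      calc W p f ((2 : ℝ) • h) * ‖(2 : ℝ) • h‖ₑ ^ (-((N : ℝ) + p))
          ≤ (2 ^ p * W p f h) * (2 ^ (-((N : ℝ) + p)) * ‖h‖ₑ ^ (-((N : ℝ) + p))) := by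
            rw [e]
            gcongr
            exact W_double hp hf h
        _ = (2 ^ p * 2 ^ (-((N : ℝ) + p))) * (W p f h * ‖h‖ₑ ^ (-((N : ℝ) + p))) := by ring
        _ = _ := by rw [e2]
    · rw [hF, indicator_of_notMem (fun h => hh (hmem.1 h))]
      exact zero_le
  have h2 : ENNReal.ofReal ((2 ^ N)⁻¹) * ∫⁻ h, F h ≤ ENNReal.ofReal ((2 ^ N)⁻¹) * ∫⁻ h, F' h := by
    rw [← h1, ← lintegral_const_mul _ hF'm]
    exact lintegral_mono hpt
  refine (ENNReal.mul_le_mul_iff_right ?_ ENNReal.ofReal_ne_top).1 h2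
  rw [Ne, ENNReal.ofReal_eq_zero, not_le]
  positivity

lemma weight_split {N : ℕ} {h : E N} (h0 : 0 < ‖h‖) (s p : ℝ) :
    ‖h‖ₑ ^ (-((N : ℝ) + s * p)) = ‖h‖ₑ ^ (-((N : ℝ) + p)) * ‖h‖ₑ ^ (p * (1 - s)) := by
  have hne : ‖h‖ₑ ≠ ⊤ := enorm_ne_top
  have hn0 : ‖h‖ₑ ≠ 0 := by
    rw [Ne, enorm_eq_zero, ← norm_eq_zero]
    exact h0.ne'
  rw [← ENNReal.rpow_add _ _ hn0 hne]
  congr 1
  ring

/-- The near part. -/
noncomputable def near {N : ℕ} (s p : ℝ) (f : E N → ℂ) : ℝ≥0∞ :=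
  ∫⁻ h in {h : E N | 0 < ‖h‖ ∧ ‖h‖ ≤ 1}, W p f h * ‖h‖ₑ ^ (-((N : ℝ) + s * p))

lemma near_eq {N : ℕ} (s p : ℝ) (f : E N → ℂ) :
    near s p f = ∑' k, ∫⁻ h in shell N k, W p f h * ‖h‖ₑ ^ (-((N : ℝ) + s * p)) := by
  unfold near
  rw [← shell_union, lintegral_iUnion (shell_measurable N) (shell_disjoint N)]

lemma near_le {N : ℕ} {s p : ℝ} (hp : 1 ≤ p) (hs : s < 1) {f : E N → ℂ} (hf : Measurable f) :
    near s p f ≤ ∑' k, A p f k * (ENNReal.ofReal ((1 / 2) ^ (p * (1 - s)))) ^ k := by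
  have hα : 0 ≤ p * (1 - s) := mul_nonneg (by linarith) (by linarith)
  rw [near_eq]
  refine ENNReal.tsum_le_tsum fun k => ?_
  unfold A
  have hWm := W_measurable (p := p) hf
  rw [← lintegral_mul_const _ (by fun_prop)]
  refine setLIntegral_mono' (shell_measurable N k) fun h hh => ?_
  have h0 : 0 < ‖h‖ := lt_of_le_of_lt (by positivity) hh.1
  rw [weight_split h0, ← mul_assoc]
  gcongr
  have h1 : (ENNReal.ofReal ((1 / 2) ^ (p * (1 - s)))) ^ k =
      (ENNReal.ofReal ((1 / 2) ^ k)) ^ (p * (1 - s)) := by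
    rw [← ENNReal.ofReal_pow (by positivity),
      ENNReal.ofReal_rpow_of_nonneg (by positivity) hα,
      ← Real.rpow_natCast, ← Real.rpow_mul (by norm_num), mul_comm (p * (1 - s)),
      Real.rpow_mul (by norm_num), Real.rpow_natCast]
  rw [h1]
  refine ENNReal.rpow_le_rpow ?_ hα
  rw [← ofReal_norm]
  exact ENNReal.ofReal_le_ofReal hh.2

lemma near_ge {N : ℕ} {t p : ℝ} (hp : 1 ≤ p) (ht : t < 1) (ht0 : 0 < t) {f : E N → ℂ}
    (hf : Measurable f) :
    ∑' k, A p f k * (ENNReal.ofReal ((1 / 2) ^ (p * (1 - t)))) ^ k ≤ 2 ^ p * near t p f := by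
  have hβ : 0 ≤ p * (1 - t) := mul_nonneg (by linarith) (by linarith)
  rw [near_eq, ← ENNReal.tsum_mul_left]
  refine ENNReal.tsum_le_tsum fun k => ?_
  unfold A
  have hWm := W_measurable (p := p) hf
  rw [← lintegral_mul_const _ (by fun_prop), ← lintegral_const_mul _ (by fun_prop)]
  refine setLIntegral_mono' (shell_measurable N k) fun h hh => ?_
  have h0 : 0 < ‖h‖ := lt_of_le_of_lt (by positivity) hh.1
  rw [weight_split h0]
  have hkey : (ENNReal.ofReal ((1 / 2) ^ (p * (1 - t)))) ^ k ≤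
      2 ^ p * ‖h‖ₑ ^ (p * (1 - t)) := by
    have h1 : (ENNReal.ofReal ((1 / 2) ^ (p * (1 - t)))) ^ k =
        2 ^ (p * (1 - t)) * (ENNReal.ofReal ((1 / 2) ^ (k + 1))) ^ (p * (1 - t)) := by
      rw [← ENNReal.ofReal_pow (by positivity),
        ENNReal.ofReal_rpow_of_nonneg (by positivity) hβ,
        show (2 : ℝ≥0∞) = ENNReal.ofReal 2 by norm_num,
        ENNReal.ofReal_rpow_of_nonneg (by positivity) hβ,
        ← ENNReal.ofReal_mul (by positivity), ← Real.mul_rpow (by positivity) (by positivity),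
        ← Real.rpow_natCast, ← Real.rpow_mul (by norm_num), mul_comm (p * (1 - t)),
        Real.rpow_mul (by norm_num), Real.rpow_natCast]
      congr 2
      rw [pow_succ]
      ring
    rw [h1]
    have h2 : (2 : ℝ≥0∞) ^ (p * (1 - t)) ≤ 2 ^ p := by
      refine ENNReal.rpow_le_rpow_of_exponent_le (by norm_num) ?_
      nlinarith
    have h3 : (ENNReal.ofReal ((1 / 2) ^ (k + 1))) ^ (p * (1 - t)) ≤ ‖h‖ₑ ^ (p * (1 - t)) := by
      refine ENNReal.rpow_le_rpow ?_ hβ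
      rw [← ofReal_norm]
      exact ENNReal.ofReal_le_ofReal hh.1.le
    gcongr
  calc W p f h * ‖h‖ₑ ^ (-((N : ℝ) + p)) * (ENNReal.ofReal ((1 / 2) ^ (p * (1 - t)))) ^ k
      ≤ W p f h * ‖h‖ₑ ^ (-((N : ℝ) + p)) * (2 ^ p * ‖h‖ₑ ^ (p * (1 - t))) := by gcongr
    _ = _ := by ring

lemma near_compare {N : ℕ} {s t p : ℝ} (hp : 1 ≤ p) (hs0 : 0 < s) (hst : s < t) (ht : t < 1)
    {f : E N → ℂ} (hf : Measurable f) :
    ENNReal.ofReal (1 - s) * near s p f ≤
      ENNReal.ofReal (2 * p * 2 ^ p * (1 - t)) * near t p f := by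
  have hp0 : 0 < p := by linarith
  have hα : 0 < p * (1 - s) := mul_pos hp0 (by linarith)
  have hβ : 0 < p * (1 - t) := mul_pos hp0 (by linarith)
  set x : ℝ := (1 / 2) ^ (p * (1 - s)) with hx
  set y : ℝ := (1 / 2) ^ (p * (1 - t)) with hy
  have hxpos : 0 < x := by positivity
  have hypos : 0 < y := by positivity
  have hxy : x ≤ y := by
    refine Real.rpow_le_rpow_of_exponent_ge (by norm_num) (by norm_num) ?_
    nlinarith
  have hy1 : y < 1 := Real.rpow_lt_one (by norm_num) (by norm_num) hβ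
  have hx2 : 1 - s ≤ 2 * (1 - x) := by
    have h1 : x ≤ (1 / 2) ^ (1 - s) :=
      Real.rpow_le_rpow_of_exponent_ge (by norm_num) (by norm_num) (by nlinarith)
    have h2 := rpow_one_add_le_one_add_mul_self (s := (-1 / 2 : ℝ)) (by norm_num)
      (p := 1 - s) (by linarith) (by linarith)
    norm_num at h2 h1
    linarith
  have hy2 : 1 - y ≤ p * (1 - t) := by
    have h1 : y = Real.exp (Real.log (1 / 2) * (p * (1 - t))) := by
      rw [hy, Real.rpow_def_of_pos (by norm_num)]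
    have h2 := Real.add_one_le_exp (Real.log (1 / 2) * (p * (1 - t)))
    have h3 : -1 ≤ Real.log (1 / 2) := by
      rw [one_div, Real.log_inv]
      have := Real.log_two_lt_d9
      linarith
    rw [h1]
    nlinarith
  rcases abel (A_mono hp hf) (ENNReal.ofReal_le_ofReal hxy)
    (by rw [ENNReal.ofReal_le_one]; exact hy1.le) with h | h
  · have hnx : ENNReal.ofReal (1 - s) ≤ 2 * (1 - ENNReal.ofReal x) := by
      rw [show (1 : ℝ≥0∞) = ENNReal.ofReal 1 by simp, ← ENNReal.ofReal_sub _ hxpos.le,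
        show (2 : ℝ≥0∞) = ENNReal.ofReal 2 by norm_num, ← ENNReal.ofReal_mul (by norm_num)]
      exact ENNReal.ofReal_le_ofReal hx2
    have hny : 1 - ENNReal.ofReal y ≤ ENNReal.ofReal (p * (1 - t)) := by
      rw [show (1 : ℝ≥0∞) = ENNReal.ofReal 1 by simp, ← ENNReal.ofReal_sub _ hypos.le]
      exact ENNReal.ofReal_le_ofReal hy2
    calc ENNReal.ofReal (1 - s) * near s p f
        ≤ (2 * (1 - ENNReal.ofReal x)) * ∑' k, A p f k * (ENNReal.ofReal x) ^ k := by
          gcongr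
          exact near_le hp (by linarith) hf
      _ = 2 * ((1 - ENNReal.ofReal x) * ∑' k, A p f k * (ENNReal.ofReal x) ^ k) := by ring
      _ ≤ 2 * ((1 - ENNReal.ofReal y) * ∑' k, A p f k * (ENNReal.ofReal y) ^ k) := by gcongr
      _ ≤ 2 * (ENNReal.ofReal (p * (1 - t)) * (2 ^ p * near t p f)) := by
          gcongr
          exact near_ge hp ht (by linarith) hf
      _ = ENNReal.ofReal (2 * p * 2 ^ p * (1 - t)) * near t p f := by
          have e : ENNReal.ofReal (2 * p * 2 ^ p * (1 - t)) =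
              2 * (ENNReal.ofReal (p * (1 - t)) * 2 ^ p) := by
            rw [show (2 : ℝ≥0∞) = ENNReal.ofReal 2 by norm_num,
              ENNReal.ofReal_rpow_of_pos (by norm_num), ← ENNReal.ofReal_mul hβ.le,
              ← ENNReal.ofReal_mul (by norm_num)]
            congr 1
            ring
          rw [e]
          ring
  · have h1 := near_ge hp ht (by linarith) hf
    rw [← hy, h, top_le_iff] at h1
    have h2 : near t p f = ⊤ := by
      by_contra h3
      exact ENNReal.mul_ne_top (ENNReal.rpow_ne_top_of_nonneg hp0.le (by norm_num)) h3 h1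
    rw [h2, ENNReal.mul_top]
    · exact le_top
    · rw [Ne, ENNReal.ofReal_eq_zero, not_le]
      have : 0 < 1 - t := by linarith
      positivity

/-- The far part is controlled by the `L^p` norm. -/
lemma far_const (N : ℕ) {p θ : ℝ} (hp : 1 ≤ p) (hθ : 0 < θ) :
    ∃ C : ℝ≥0∞, C ≠ ⊤ ∧ ∀ s : ℝ, θ < s → ∀ f : E N → ℂ, Measurable f →
      ∫⁻ h in {h : E N | 1 < ‖h‖}, W p f h * ‖h‖ₑ ^ (-((N : ℝ) + s * p)) ≤
        C * ∫⁻ x, ‖f x‖ₑ ^ p := by
  have hr : (Module.finrank ℝ (E N) : ℝ) < (N : ℝ) + θ * p := by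
    rw [finrank_euclideanSpace, Fintype.card_fin]
    have : 0 < θ * p := mul_pos hθ (by linarith)
    linarith
  have hfin := finite_integral_one_add_norm (μ := (volume : Measure (E N))) hr
  refine ⟨2 ^ p * (ENNReal.ofReal (2 ^ ((N : ℝ) + θ * p)) *
    ∫⁻ x : E N, ENNReal.ofReal ((1 + ‖x‖) ^ (-((N : ℝ) + θ * p)))), ?_, ?_⟩
  · refine ENNReal.mul_ne_top (ENNReal.rpow_ne_top_of_nonneg (by linarith) (by norm_num)) ?_
    exact ENNReal.mul_ne_top ENNReal.ofReal_ne_top hfin.ne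
  · intro s hs f hf
    calc ∫⁻ h in {h : E N | 1 < ‖h‖}, W p f h * ‖h‖ₑ ^ (-((N : ℝ) + s * p))
        ≤ ∫⁻ h in {h : E N | 1 < ‖h‖}, (2 ^ p * ∫⁻ x, ‖f x‖ₑ ^ p) *
            (ENNReal.ofReal (2 ^ ((N : ℝ) + θ * p)) *
              ENNReal.ofReal ((1 + ‖h‖) ^ (-((N : ℝ) + θ * p)))) := by
          refine setLIntegral_mono' (measurableSet_lt measurable_const measurable_norm)
            fun h hh => ?_
          have h1 : 1 < ‖h‖ := hh
          have h0 : 0 < ‖h‖ := by linarith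
          refine mul_le_mul' (W_le hp hf h) ?_
          rw [← ofReal_norm, ENNReal.ofReal_rpow_of_pos h0,
            ← ENNReal.ofReal_mul (by positivity)]
          refine ENNReal.ofReal_le_ofReal ?_
          calc ‖h‖ ^ (-((N : ℝ) + s * p)) ≤ ‖h‖ ^ (-((N : ℝ) + θ * p)) := by
                refine Real.rpow_le_rpow_of_exponent_le h1.le ?_
                nlinarith
            _ ≤ ((1 + ‖h‖) / 2) ^ (-((N : ℝ) + θ * p)) := by
                refine Real.rpow_le_rpow_of_nonpos (by positivity) (by linarith) ?_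
                have : 0 < θ * p := mul_pos hθ (by linarith)
                have : (0 : ℝ) ≤ N := by positivity
                linarith
            _ = 2 ^ ((N : ℝ) + θ * p) * (1 + ‖h‖) ^ (-((N : ℝ) + θ * p)) := by
                rw [Real.div_rpow (by positivity) (by norm_num), Real.rpow_neg (by norm_num : (0:ℝ) ≤ 2)]
                rw [div_inv_eq_mul, mul_comm]
      _ ≤ ∫⁻ h : E N, (2 ^ p * ∫⁻ x, ‖f x‖ₑ ^ p) *
            (ENNReal.ofReal (2 ^ ((N : ℝ) + θ * p)) *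
              ENNReal.ofReal ((1 + ‖h‖) ^ (-((N : ℝ) + θ * p)))) := setLIntegral_le_lintegral _ _
      _ = _ := by
          rw [lintegral_const_mul _ (by fun_prop), lintegral_const_mul _ (by fun_prop)]
          ring

lemma pow_split {N : ℕ} {s p : ℝ} (hp : 1 ≤ p) {f : E N → ℂ}
    (hf : Measurable f) :
    gagliardoPow s p f = near s p f +
      ∫⁻ h in {h : E N | 1 < ‖h‖}, W p f h * ‖h‖ₑ ^ (-((N : ℝ) + s * p)) := by
  have hWm := W_measurable (p := p) hf
  have hFm : Measurable fun h : E N => W p f h * ‖h‖ₑ ^ (-((N : ℝ) + s * p)) := by fun_prop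
  have hm1 : MeasurableSet {h : E N | 1 < ‖h‖} := measurableSet_lt measurable_const measurable_norm
  rw [gagliardoPow_eq hf, ← lintegral_add_compl _ hm1, add_comm]
  congr 1
  unfold near
  have hm2 : MeasurableSet {h : E N | 0 < ‖h‖ ∧ ‖h‖ ≤ 1} :=
    (measurableSet_lt measurable_const measurable_norm).inter
      (measurableSet_le measurable_norm measurable_const)
  rw [← lintegral_indicator hm1.compl, ← lintegral_indicator hm2]
  refine lintegral_congr fun h => ?_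
  by_cases h0 : h = 0
  · subst h0
    have hW0 : W p f (0 : E N) = 0 := by
      unfold W
      have : ∀ x : E N, ‖f (x + 0) - f x‖ₑ ^ p = 0 := by
        intro x
        rw [add_zero, sub_self, enorm_zero, ENNReal.zero_rpow_of_pos (by linarith)]
      simp only [this, lintegral_zero]
    by_cases h1 : (0 : E N) ∈ {h : E N | 1 < ‖h‖}ᶜ
    · by_cases h2 : (0 : E N) ∈ {h : E N | 0 < ‖h‖ ∧ ‖h‖ ≤ 1}
      · rw [indicator_of_mem h1, indicator_of_mem h2]
      · rw [indicator_of_mem h1, indicator_of_notMem h2, hW0, zero_mul]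
    · by_cases h2 : (0 : E N) ∈ {h : E N | 0 < ‖h‖ ∧ ‖h‖ ≤ 1}
      · rw [indicator_of_notMem h1, indicator_of_mem h2, hW0, zero_mul]
      · rw [indicator_of_notMem h1, indicator_of_notMem h2]
  · have hpos : 0 < ‖h‖ := norm_pos_iff.2 h0
    by_cases h1 : h ∈ {h : E N | 1 < ‖h‖}ᶜ
    · have h2 : h ∈ {h : E N | 0 < ‖h‖ ∧ ‖h‖ ≤ 1} := ⟨hpos, not_lt.1 h1⟩
      rw [indicator_of_mem h1, indicator_of_mem h2]
    · have h2 : h ∉ {h : E N | 0 < ‖h‖ ∧ ‖h‖ ≤ 1} := fun h3 => h1 (not_lt.2 h3.2)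
      rw [indicator_of_notMem h1, indicator_of_notMem h2]

lemma power_form (N : ℕ) {p θ : ℝ} (hp : 1 ≤ p) (hθ : 0 < θ) (hθ1 : θ < 1) :
    ∃ C : ℝ, 0 < C ∧ ∀ s t : ℝ, θ < s → s < t → t < 1 → ∀ f : E N → ℂ, Measurable f →
      ENNReal.ofReal (min s (1 - s)) * gagliardoPow s p f ≤
        ENNReal.ofReal C * ((∫⁻ x, ‖f x‖ₑ ^ p) +
          ENNReal.ofReal (min t (1 - t)) * gagliardoPow t p f) := by
  obtain ⟨C₀, hC₀, hfar⟩ := far_const N hp hθ
  set K : ℝ := 2 * p * 2 ^ p / θ with hK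
  have hKpos : 0 < K := by
    have : 0 < p := by linarith
    positivity
  refine ⟨C₀.toReal + K, add_pos_of_nonneg_of_pos ENNReal.toReal_nonneg hKpos, ?_⟩
  intro s t hs hst ht f hf
  rw [pow_split hp hf (s := s)]
  have h1 : ENNReal.ofReal (min s (1 - s)) * near s p f ≤
      ENNReal.ofReal K * (ENNReal.ofReal (min t (1 - t)) * gagliardoPow t p f) := by
    calc ENNReal.ofReal (min s (1 - s)) * near s p f
        ≤ ENNReal.ofReal (1 - s) * near s p f := by
          gcongr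
          exact min_le_right _ _
      _ ≤ ENNReal.ofReal (2 * p * 2 ^ p * (1 - t)) * near t p f :=
          near_compare hp (by linarith) hst ht hf
      _ ≤ ENNReal.ofReal (K * min t (1 - t)) * gagliardoPow t p f := by
          have h2 : near t p f ≤ gagliardoPow t p f := by
            rw [pow_split hp hf (s := t)]
            exact le_self_add
          have h3 : 2 * p * 2 ^ p * (1 - t) ≤ K * min t (1 - t) := by
            have h4 : θ * (1 - t) ≤ min t (1 - t) := by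
              refine le_min ?_ ?_ <;> nlinarith
            have h5 : 0 < p := by linarith
            have h6 : 2 * p * 2 ^ p = K * θ := by
              rw [hK]; field_simp
            rw [h6, mul_assoc]
            exact mul_le_mul_of_nonneg_left h4 hKpos.le
          gcongr
      _ = _ := by
          rw [ENNReal.ofReal_mul hKpos.le, mul_assoc]
  have h2 : ENNReal.ofReal (min s (1 - s)) *
      ∫⁻ h in {h : E N | 1 < ‖h‖}, W p f h * ‖h‖ₑ ^ (-((N : ℝ) + s * p)) ≤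
      ENNReal.ofReal C₀.toReal * ∫⁻ x, ‖f x‖ₑ ^ p := by
    rw [ENNReal.ofReal_toReal hC₀]
    have h3 : ENNReal.ofReal (min s (1 - s)) ≤ 1 := by
      rw [ENNReal.ofReal_le_one]
      exact (min_le_left _ _).trans (by linarith)
    calc _ ≤ 1 * ∫⁻ h in {h : E N | 1 < ‖h‖}, W p f h * ‖h‖ₑ ^ (-((N : ℝ) + s * p)) := by
          gcongr
      _ ≤ _ := by
          rw [one_mul]
          exact hfar s hs f hf
  rw [mul_add]
  calc _ ≤ ENNReal.ofReal K * (ENNReal.ofReal (min t (1 - t)) * gagliardoPow t p f) +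
        ENNReal.ofReal C₀.toReal * ∫⁻ x, ‖f x‖ₑ ^ p := add_le_add h1 h2
    _ ≤ ENNReal.ofReal (C₀.toReal + K) *
        (ENNReal.ofReal (min t (1 - t)) * gagliardoPow t p f) +
        ENNReal.ofReal (C₀.toReal + K) * ∫⁻ x, ‖f x‖ₑ ^ p := by
        have h0 : 0 ≤ C₀.toReal := ENNReal.toReal_nonneg
        gcongr <;> linarith
    _ = _ := by ring

lemma gagliardoPow_congr {N : ℕ} {s p : ℝ} {f g : E N → ℂ} (h : f =ᵐ[volume] g) :
    gagliardoPow s p f = gagliardoPow s p g := by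
  unfold gagliardoPow
  refine lintegral_congr_ae ?_
  filter_upwards [h] with x hx
  refine lintegral_congr_ae ?_
  filter_upwards [h] with y hy
  rw [hx, hy]

/-- **Q1 holds.** For every `N ≥ 1`, `p ∈ (1, ∞)` and `θ ∈ (0,1)` there is a constant
`C = C(N, p, θ) > 0` such that for all `θ < s < t < 1` the inequality of the problem holds; it
holds for every measurable function `f : ℝ^N → ℂ` (as an inequality in `[0, ∞]`), in particular
for every Schwartz function. -/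
theorem result : ∀ N : ℕ, 1 ≤ N → ∀ p : ℝ, 1 < p → ∀ θ : ℝ, 0 < θ → θ < 1 →
    ∃ C : ℝ, 0 < C ∧
      (∀ s t : ℝ, θ < s → s < t → t < 1 → ∀ f : E N → ℂ, AEStronglyMeasurable f volume →
        ENNReal.ofReal (min s (1 - s) ^ (1 / p)) * gagliardo s p f ≤
          ENNReal.ofReal C * (eLpNorm f (ENNReal.ofReal p) volume +
            ENNReal.ofReal (min t (1 - t) ^ (1 / p)) * gagliardo t p f)) ∧
      (∀ s t : ℝ, θ < s → s < t → t < 1 → ∀ f : SchwartzMap (E N) ℂ,
        ENNReal.ofReal (min s (1 - s) ^ (1 / p)) * gagliardo s p f ≤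
          ENNReal.ofReal C * (eLpNorm f (ENNReal.ofReal p) volume +
            ENNReal.ofReal (min t (1 - t) ^ (1 / p)) * gagliardo t p f)) := by
  intro N _ p hp θ hθ hθ1
  obtain ⟨C, hC, hpow⟩ := power_form N hp.le hθ hθ1
  have hp0 : 0 < p := by linarith
  have main : ∀ s t : ℝ, θ < s → s < t → t < 1 → ∀ f : E N → ℂ,
      AEStronglyMeasurable f volume →
        ENNReal.ofReal (min s (1 - s) ^ (1 / p)) * gagliardo s p f ≤
          ENNReal.ofReal (C ^ (1 / p)) * (eLpNorm f (ENNReal.ofReal p) volume +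
            ENNReal.ofReal (min t (1 - t) ^ (1 / p)) * gagliardo t p f) := by
    intro s t hs hst ht f hf
    have hinv : 0 < 1 / p := by positivity
    have hinv1 : 1 / p ≤ 1 := by rw [div_le_one hp0]; exact hp.le
    have hms : 0 ≤ min s (1 - s) := le_min (by linarith) (by linarith)
    have hmt : 0 ≤ min t (1 - t) := le_min (by linarith) (by linarith)
    have hg : Measurable (hf.mk f) := hf.stronglyMeasurable_mk.measurable
    have h1 := hpow s t hs hst ht (hf.mk f) hg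
    rw [← gagliardoPow_congr hf.ae_eq_mk, ← gagliardoPow_congr hf.ae_eq_mk] at h1
    have h2 : ∫⁻ x, ‖hf.mk f x‖ₑ ^ p = ∫⁻ x, ‖f x‖ₑ ^ p := by
      refine lintegral_congr_ae ?_
      filter_upwards [hf.ae_eq_mk] with x hx
      rw [hx]
    rw [h2] at h1
    have h3 := ENNReal.rpow_le_rpow h1 hinv.le
    rw [ENNReal.mul_rpow_of_nonneg _ _ hinv.le, ENNReal.mul_rpow_of_nonneg _ _ hinv.le,
      ENNReal.ofReal_rpow_of_nonneg hms hinv.le, ENNReal.ofReal_rpow_of_nonneg hC.le hinv.le] at h3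
    have h4 : ((∫⁻ x, ‖f x‖ₑ ^ p) + ENNReal.ofReal (min t (1 - t)) * gagliardoPow t p f) ^ (1 / p)
        ≤ eLpNorm f (ENNReal.ofReal p) volume +
            ENNReal.ofReal (min t (1 - t) ^ (1 / p)) * gagliardo t p f := by
      refine (ENNReal.rpow_add_le_add_rpow _ _ hinv.le hinv1).trans ?_
      rw [ENNReal.mul_rpow_of_nonneg _ _ hinv.le, ENNReal.ofReal_rpow_of_nonneg hmt hinv.le]
      have e : eLpNorm f (ENNReal.ofReal p) volume = (∫⁻ x, ‖f x‖ₑ ^ p) ^ (1 / p) := by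
        rw [eLpNorm_eq_lintegral_rpow_enorm_toReal (by
          rw [Ne, ENNReal.ofReal_eq_zero, not_le]; exact hp0) ENNReal.ofReal_ne_top,
          ENNReal.toReal_ofReal hp0.le]
      rw [e]
      rfl
    refine h3.trans ?_
    gcongr
  refine ⟨C ^ (1 / p), by positivity, main, ?_⟩
  intro s t hs hst ht f
  exact main s t hs hst ht f f.continuous.aestronglyMeasurable

end Pool.Agent.Results.MP_95ea62_an.UniformComparison
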